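import Pool.Agent.H41.AL.Defs

set_option autoImplicit false

/-!
# Correspondence packings with `(1 + ε) Δ` colours, all graphs: statements of the steps
-/

namespace Pool.Agent.H41.AL

open Equiv

open Classical in
/-- the factor by which a weight is multiplied -/
noncomputable def fac {n L : ℕ} (M : Fin L → Perm (Fin n)) (k : Fin L) (g : Perm (Fin n))
    (j c : Fin n) : ℝ :=
  if M k j = g c then 0 else if ∃ k', M k' j = g c then (L : ℝ) / (L - 1) else 1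

/-- the sums have changed by at most `τ` -/
def Near3 {n : ℕ} (τ : ℝ) (W W' : Mx n) : Prop :=
  (∀ j, |rowS W' j - rowS W j| ≤ τ) ∧ (∀ c, |colS W' c - colS W c| ≤ τ) ∧
    ∀ j j', j ≠ j' → cod W' j j' ≤ cod W j j' + τ

/-- the new weights at `w` -/
noncomputable def newW {V : Type} [Fintype V] [DecidableEq V] (G : SimpleGraph V)
    [DecidableRel G.Adj] {n L : ℕ} (σ : V → V → Perm (Fin n)) (M : V → Fin L → Perm (Fin n))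
    (k : V → Fin L) (U : Finset V) (W : V → Mx n) (w : V) : Mx n :=
  fun j c => W w j c * ∏ u ∈ U.filter (fun u => G.Adj w u), fac (M u) (k u) (σ u w)⁻¹ j c

/-- G1 -/
def S_TAIL : Prop := ∀ (n L d : ℕ) (ι : Type) [Fintype ι] [DecidableEq ι] (N : Finset ι)
  (M : ι → Fin L → Perm (Fin n)) (g : ι → Perm (Fin n)) (W : Mx n) (A τ : ℝ), 3 ≤ L →
  (∀ u ∈ N, Disj (M u)) → N.card ≤ d →
  (∀ j c, 0 ≤ W j c ∧ W j c * ((L : ℝ) / (L - 1)) ^ d ≤ A) → 1 ≤ A → 0 ≤ τ →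
  τ ≤ 10 * A ^ 2 * (d + 1) →
  ({k : ι → Fin L | ¬ Near3 τ W fun j c => W j c * ∏ u ∈ N, fac (M u) (k u) (g u) j c}.ncard : ℝ)
    ≤ 5 * (n : ℝ) ^ 2 * Real.exp (-(τ ^ 2 / (100 * A ^ 4 * (d + 1)))) *
      Fintype.card (ι → Fin L)

/-- G2 -/
def S_STAGE : Prop := ∀ (V : Type) [Fintype V] [DecidableEq V] (G : SimpleGraph V)
  [DecidableRel G.Adj] (n L D d m : ℕ) (U X : Finset V) (σ : V → V → Perm (Fin n))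
  (M : V → Fin L → Perm (Fin n)) (W : V → Mx n) (A τ : ℝ), 3 ≤ L → 1 ≤ D →
  (∀ u ∈ U, Disj (M u)) → (∀ v, (U.filter fun u => G.Adj v u).card ≤ d) →
  (∀ v, (Finset.univ.filter (G.Adj v)).card ≤ D) →
  (∀ w ∈ X, ∀ j c, 0 ≤ W w j c ∧ W w j c * ((L : ℝ) / (L - 1)) ^ d ≤ A) → 1 ≤ A → 0 ≤ τ →
  τ ≤ 10 * A ^ 2 * (d + 1) →
  5 * (n : ℝ) ^ 2 * Real.exp (-(τ ^ 2 / (100 * A ^ 4 * (d + 1)))) * (16 * (d + 1) * D) ≤ 1 →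
  16 * (d + 1) ^ 3 * n ≤ m * L →
  ∃ k : V → Fin L,
    (∀ u ∈ U, {j | ∃ v ∈ U, G.Adj u v ∧ M v (k v) j = σ u v (M u (k u) j)}.ncard ≤ m) ∧
    ∀ w ∈ X, Near3 τ (W w) (newW G σ M k U W w)

/-- G3 -/
def S_FIX : Prop := ∀ (n m β : ℕ) (B : Fin n → Fin n → Prop) (P : Perm (Fin n))
  (R : Finset (Fin n)), R.card ≤ m → (∀ j, j ∉ R → B j (P j)) →
  (∀ S T : Finset (Fin n), β ≤ S.card → β ≤ T.card → ∃ j ∈ S, ∃ c ∈ T, B j c) →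
  (∀ j, 2 * β + m ≤ {c | B j c}.ncard) → (∀ c, 2 * β + m ≤ {j | B j c}.ncard) →
  ∃ Q : Perm (Fin n), (∀ j, B j (Q j)) ∧ {j | Q j ≠ P j}.ncard ≤ 3 * m

/-- G4 -/
def S_CLASS : Prop := ∀ (V : Type) [Fintype V] [DecidableEq V] (G : SimpleGraph V)
  [DecidableRel G.Adj] (n m β d : ℕ) (U : Finset V) (σ : V → V → Perm (Fin n))
  (B : V → Fin n → Fin n → Prop) (P : V → Perm (Fin n)),
  (∀ u v, G.Adj u v → σ v u = (σ u v)⁻¹) → (∀ v, (U.filter fun u => G.Adj v u).card ≤ d) →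
  (∀ v ∈ U, ∀ j, B v j (P v j)) →
  (∀ u ∈ U, {j | ∃ v ∈ U, G.Adj u v ∧ P v j = σ u v (P u j)}.ncard ≤ m) →
  (∀ v ∈ U, ∀ S T : Finset (Fin n), β ≤ S.card → β ≤ T.card →
    d * S.card < {p : Fin n × Fin n | p.1 ∈ S ∧ p.2 ∈ T ∧ B v p.1 p.2}.ncard) →
  (∀ v ∈ U, ∀ j, 2 * β + m + d ≤ {c | B v j c}.ncard) →
  (∀ v ∈ U, ∀ c, 2 * β + m + d ≤ {j | B v j c}.ncard) →
  ∃ Q : V → Perm (Fin n), (∀ v ∈ U, ∀ j, B v j (Q v j)) ∧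
    (∀ u ∈ U, ∀ v ∈ U, G.Adj u v → ∀ j, Q v j ≠ σ u v (Q u j)) ∧
    ∀ v ∈ U, {j | Q v j ≠ P v j}.ncard ≤ 3 * m

/-- G5 -/
def S_CUT2 : Prop := ∀ η' Am : ℝ, 0 < η' → η' < 1 → 1 ≤ Am → ∃ η β κ : ℝ, 0 < η ∧ η ≤ 1 / 2 ∧
  0 < β ∧ β ≤ 1 / (8 * Am) ∧ 0 < κ ∧ ∃ n₀ : ℕ, ∀ n : ℕ, n₀ ≤ n → ∀ (W : Mx n) (a : ℝ),
  1 ≤ a → a ≤ Am → Good n η a W → ∀ B : Fin n → Fin n → Prop,
  ({p : Fin n × Fin n | W p.1 p.2 ≠ 0 ∧ ¬ B p.1 p.2}.ncard : ℝ) ≤ η * (n : ℝ) ^ 2 →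
  (∀ j, (1 - η) * n / a ≤ ({c | B j c}.ncard : ℝ)) →
  (∀ c, (1 - η) * n / a ≤ ({j | B j c}.ncard : ℝ)) →
  (∀ L : ℕ, (L : ℝ) ≤ (1 - η') * n / a → ∀ S T : Finset (Fin n),
    L * (S.card + T.card) ≤
      {p : Fin n × Fin n | p.1 ∈ S ∧ p.2 ∈ T ∧ B p.1 p.2}.ncard + L * n) ∧
  ∀ S T : Finset (Fin n), β * n ≤ S.card → β * n ≤ T.card →
    κ * (n : ℝ) ^ 2 ≤ ({p : Fin n × Fin n | p.1 ∈ S ∧ p.2 ∈ T ∧ B p.1 p.2}.ncard : ℝ)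

/-- local properties of the relation of allowed cells -/
def Loc2 (n L d m β : ℕ) (B : Fin n → Fin n → Prop) : Prop :=
  (∃ M : Fin L → Perm (Fin n), Disj M ∧ ∀ k j, B j (M k j)) ∧
  (∀ S T : Finset (Fin n), β ≤ S.card → β ≤ T.card →
    d * S.card < {p : Fin n × Fin n | p.1 ∈ S ∧ p.2 ∈ T ∧ B p.1 p.2}.ncard) ∧
  (∀ j, 2 * β + m + d ≤ {c | B j c}.ncard) ∧ ∀ c, 2 * β + m + d ≤ {j | B j c}.ncard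

/-- G6 -/
def S_RUN2 : Prop := ∀ (V : Type) [Fintype V] [DecidableEq V] (G : SimpleGraph V)
  [DecidableRel G.Adj] (n K D d m β : ℕ) (ρ : V → Fin K) (σ : V → V → Perm (Fin n)) (L : ℕ → ℕ)
  (A : ℕ → ℝ) (Am τ η : ℝ), (∀ u v, G.Adj u v → σ v u = (σ u v)⁻¹) → 1 ≤ D →
  (∀ v, (Finset.univ.filter (G.Adj v)).card ≤ D) →
  (∀ v i, (Finset.univ.filter fun u => G.Adj v u ∧ ρ u = i).card ≤ d) →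
  A 0 = 1 → (∀ i, i < K → 3 ≤ L i) →
  (∀ i, i < K → A i * ((L i : ℝ) / (L i - 1)) ^ d ≤ A (i + 1)) → (∀ i, i ≤ K → A i ≤ Am) →
  0 ≤ τ → τ ≤ 10 * Am ^ 2 * (d + 1) →
  5 * (n : ℝ) ^ 2 * Real.exp (-(τ ^ 2 / (100 * Am ^ 4 * (d + 1)))) * (16 * (d + 1) * D) ≤ 1 →
  (∀ i, i < K → 16 * (d + 1) ^ 3 * n ≤ m * L i) → K * τ ≤ η * n →
  (∀ i, i < K → ∀ (W : Mx n) (B : Fin n → Fin n → Prop), Good n η (A i) W →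
    {p : Fin n × Fin n | W p.1 p.2 ≠ 0 ∧ ¬ B p.1 p.2}.ncard ≤ 3 * m * D →
    (∀ j, n ≤ {c | B j c}.ncard + i * d) → (∀ c, n ≤ {j | B j c}.ncard + i * d) →
    Loc2 n (L i) d m β B) →
  ∃ φ : V → Perm (Fin n), ∀ u v, G.Adj u v → ∀ i, φ v i ≠ σ u v (φ u i)

/-- G7 -/
def S_GPART : Prop := ∀ ε : ℝ, 0 < ε → ε ≤ 1 → ∃ D₀ : ℕ, ∀ D : ℕ, D₀ ≤ D → ∀ K : ℕ, 1 ≤ K →
  (K : ℝ) ≤ (D : ℝ) ^ (9 / 10 : ℝ) → ∀ (V : Type) [Fintype V] [DecidableEq V] (G : SimpleGraph V)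
  [DecidableRel G.Adj], (∀ v, (Finset.univ.filter (G.Adj v)).card ≤ D) →
  ∃ ρ : V → Fin K, ∀ v i,
  ((Finset.univ.filter fun u => G.Adj v u ∧ ρ u = i).card : ℝ) ≤ (1 + ε) * D / K

/-- G8 -/
def S_PARM2 : Prop := ∀ ε : ℝ, 0 < ε → ε ≤ 1 → ∃ Am η' ε' : ℝ, 1 ≤ Am ∧ 0 < η' ∧ η' < 1 ∧
  0 < ε' ∧ ε' ≤ 1 ∧ ∀ η β κ : ℝ, 0 < η → η ≤ 1 / 2 → 0 < β → β ≤ 1 / (8 * Am) → 0 < κ →
  ∃ D₀ : ℕ, ∀ D : ℕ, D₀ ≤ D → ∀ n : ℕ, (1 + ε) * D ≤ n → n ≤ 2 * D →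
  ∃ (K d m b : ℕ) (τ : ℝ) (L : ℕ → ℕ) (A : ℕ → ℝ), 1 ≤ K ∧ (K : ℝ) ≤ (D : ℝ) ^ (9 / 10 : ℝ) ∧
    (1 + ε') * D / K ≤ d ∧ A 0 = 1 ∧ (∀ i, i ≤ K → 1 ≤ A i ∧ A i ≤ Am) ∧
    (∀ i, i < K → 3 ≤ L i ∧ (L i : ℝ) ≤ (1 - η') * n / A i ∧
      A i * ((L i : ℝ) / (L i - 1)) ^ d ≤ A (i + 1) ∧ 16 * (d + 1) ^ 3 * n ≤ m * L i) ∧
    (∀ i, i ≤ K → (1 - η) * n / A i ≤ (n : ℝ) - i * d) ∧ 0 ≤ τ ∧ τ ≤ 10 * Am ^ 2 * (d + 1) ∧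
    5 * (n : ℝ) ^ 2 * Real.exp (-(τ ^ 2 / (100 * Am ^ 4 * (d + 1)))) * (16 * (d + 1) * D) ≤ 1 ∧
    K * τ ≤ η * n ∧ 3 * m * D ≤ η * (n : ℝ) ^ 2 ∧ β * n ≤ b ∧
    (2 * b + m + d : ℝ) ≤ (1 - η) * n / Am ∧ (d : ℝ) * n < κ * (n : ℝ) ^ 2

/-- G9 -/
def S_FIN2 : Prop := ∀ ε : ℝ, 0 < ε → ∃ D₀ : ℕ, ∀ D : ℕ, D₀ ≤ D →
  ∀ (V : Type) [Fintype V] [DecidableEq V] (G : SimpleGraph V) [DecidableRel G.Adj] (n : ℕ),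
  (∀ v, (Finset.univ.filter (G.Adj v)).card ≤ D) → (1 + ε) * D ≤ n → n ≤ 2 * D →
  ∀ σ : V → V → Perm (Fin n), (∀ u v, G.Adj u v → σ v u = (σ u v)⁻¹) →
  ∃ φ : V → Perm (Fin n), ∀ u v, G.Adj u v → ∀ i, φ v i ≠ σ u v (φ u i)

end Pool.Agent.H41.AL
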