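import Mathlib

set_option autoImplicit false

/-!
# Correspondence packings with `(1 + ε) Δ` colours: definitions and statements of the steps
-/

namespace Pool.Agent.H41.AL

open Equiv

/-- matrices of weights -/
abbrev Mx (n : ℕ) := Fin n → Fin n → ℝ

/-- row sum -/
def rowS {n : ℕ} (W : Mx n) (j : Fin n) : ℝ := ∑ c, W j c

/-- column sum -/
def colS {n : ℕ} (W : Mx n) (c : Fin n) : ℝ := ∑ j, W j c

/-- product of two rows -/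
def cod {n : ℕ} (W : Mx n) (j j' : Fin n) : ℝ := ∑ c, W j c * W j' c

/-- nearly doubly stochastic (after division by `n`), bounded, and of small codegrees -/
def Good (n : ℕ) (η a : ℝ) (W : Mx n) : Prop :=
  (∀ j c, 0 ≤ W j c ∧ W j c ≤ a) ∧ (∀ j, |rowS W j - n| ≤ η * n) ∧
    (∀ c, |colS W c - n| ≤ η * n) ∧ ∀ j j', j ≠ j' → cod W j j' ≤ (1 + η) * n

/-- the potential -/
noncomputable def Psi {n : ℕ} (lam : ℝ) (W : Mx n) : ℝ :=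
  ∑ j, (Real.exp (lam * (rowS W j - n)) + Real.exp (-lam * (rowS W j - n))) +
  ∑ c, (Real.exp (lam * (colS W c - n)) + Real.exp (-lam * (colS W c - n))) +
  ∑ j, ∑ j', (if j = j' then 0 else Real.exp (lam * (cod W j j' - n)))

/-- disjoint permutations -/
def Disj {n L : ℕ} (M : Fin L → Perm (Fin n)) : Prop := ∀ k k', k ≠ k' → ∀ j, M k j ≠ M k' j

open Classical in
/-- the new weights, if the permutation `M k` is chosen among the `M k'` -/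
noncomputable def upd {n L : ℕ} (M : Fin L → Perm (Fin n)) (k : Fin L) (g : Perm (Fin n))
    (W : Mx n) : Mx n := fun j c =>
  if M k j = g c then 0 else if ∃ k', M k' j = g c then W j c * ((L : ℝ) / (L - 1)) else W j c

/-- F1 -/
def S_STEPR : Prop := ∀ (n L : ℕ) (M : Fin L → Perm (Fin n)) (g : Perm (Fin n)) (W : Mx n)
  (A lam : ℝ) (j : Fin n), 3 ≤ L → Disj M → (∀ j c, 0 ≤ W j c ∧ W j c ≤ A) → 1 ≤ A →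
  |lam| * (5 * A ^ 2) ≤ 1 →
  ∑ k, Real.exp (lam * (rowS (upd M k g W) j - n)) ≤
    L * (Real.exp (25 * lam ^ 2 * A ^ 4) * Real.exp (lam * (rowS W j - n)))

/-- F2 -/
def S_STEPC : Prop := ∀ (n L : ℕ) (M : Fin L → Perm (Fin n)) (g : Perm (Fin n)) (W : Mx n)
  (A lam : ℝ) (c : Fin n), 3 ≤ L → Disj M → (∀ j c, 0 ≤ W j c ∧ W j c ≤ A) → 1 ≤ A →
  |lam| * (5 * A ^ 2) ≤ 1 →
  ∑ k, Real.exp (lam * (colS (upd M k g W) c - n)) ≤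
    L * (Real.exp (25 * lam ^ 2 * A ^ 4) * Real.exp (lam * (colS W c - n)))

/-- F3 -/
def S_STEPQ : Prop := ∀ (n L : ℕ) (M : Fin L → Perm (Fin n)) (g : Perm (Fin n)) (W : Mx n)
  (A lam : ℝ) (j j' : Fin n), 3 ≤ L → Disj M → (∀ j c, 0 ≤ W j c ∧ W j c ≤ A) → 1 ≤ A →
  0 ≤ lam → lam * (5 * A ^ 2) ≤ 1 → j ≠ j' →
  ∑ k, Real.exp (lam * (cod (upd M k g W) j j' - n)) ≤
    L * (Real.exp (25 * lam ^ 2 * A ^ 4) * Real.exp (lam * (cod W j j' - n)))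

/-- F4 -/
def S_STEP : Prop := ∀ (n L : ℕ) (M : Fin L → Perm (Fin n)) (g : Perm (Fin n)) (W : Mx n)
  (A lam : ℝ), 3 ≤ L → Disj M → (∀ j c, 0 ≤ W j c ∧ W j c ≤ A) → 1 ≤ A →
  0 ≤ lam → lam * (5 * A ^ 2) ≤ 1 →
  ∑ k, Psi lam (upd M k g W) ≤ L * (Real.exp (25 * lam ^ 2 * A ^ 4) * Psi lam W)

/-- F5 -/
def S_CUT : Prop := ∀ η' Am : ℝ, 0 < η' → η' < 1 → 1 ≤ Am → ∃ η : ℝ, 0 < η ∧ η ≤ 1 ∧
  ∃ n₀ : ℕ, ∀ n : ℕ, n₀ ≤ n → ∀ (W : Mx n) (a : ℝ), 1 ≤ a → a ≤ Am → Good n η a W →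
  ∀ L : ℕ, (L : ℝ) ≤ (1 - η') * n / a → ∀ S T : Finset (Fin n),
  L * (S.card + T.card) ≤ ((S ×ˢ T).filter fun p => W p.1 p.2 ≠ 0).card + L * n

/-- F6 -/
def S_FACTOR : Prop := ∀ (n L : ℕ) (B : Fin n → Fin n → Prop) [∀ a b, Decidable (B a b)],
  (∀ S T : Finset (Fin n),
    L * (S.card + T.card) ≤ ((S ×ˢ T).filter fun p => B p.1 p.2).card + L * n) →
  ∃ M : Fin L → Perm (Fin n), Disj M ∧ ∀ k j, B j (M k j)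

/-- F7 -/
def S_PART : Prop := ∀ (ε : ℝ) (K : ℕ), 0 < ε → ε ≤ 1 → 1 ≤ K → ∃ c : ℝ, 0 < c ∧
  ∃ D₀ : ℕ, ∀ D : ℕ, D₀ ≤ D → ∀ (V : Type) [Fintype V] [DecidableEq V] (G : SimpleGraph V)
  [DecidableRel G.Adj], (∀ v, (Finset.univ.filter (G.Adj v)).card ≤ D) →
  (Fintype.card V : ℝ) ≤ Real.exp (c * D) → ∃ ρ : V → Fin K, ∀ v i,
  ((Finset.univ.filter fun u => G.Adj v u ∧ ρ u = i).card : ℝ) ≤ (1 + ε) * D / K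

/-- F8 -/
def S_RUN : Prop := ∀ (V : Type) [Fintype V] [DecidableEq V] (G : SimpleGraph V)
  [DecidableRel G.Adj] (n K D d : ℕ) (ρ : V → Fin K) (σ : V → V → Perm (Fin n)) (L : ℕ → ℕ)
  (A : ℕ → ℝ) (Am lam η : ℝ), (∀ u v, G.Adj u v → σ v u = (σ u v)⁻¹) →
  (∀ v, (Finset.univ.filter (G.Adj v)).card ≤ D) →
  (∀ v i, (Finset.univ.filter fun u => G.Adj v u ∧ ρ u = i).card ≤ d) →
  A 0 = 1 → (∀ i, i < K → 3 ≤ L i) →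
  (∀ i, i < K → A i * ((L i : ℝ) / (L i - 1)) ^ d ≤ A (i + 1)) → (∀ i, i ≤ K → A i ≤ Am) →
  0 < lam → lam * (5 * Am ^ 2) ≤ 1 →
  Real.exp (25 * lam ^ 2 * Am ^ 4 * D) * (Fintype.card V * (5 * (n : ℝ) ^ 2)) ≤
    Real.exp (lam * (η * n)) →
  (∀ i, i < K → ∀ W : Mx n, Good n η (A (i + 1)) W →
    ∃ M : Fin (L i) → Perm (Fin n), Disj M ∧ ∀ k j, W j (M k j) ≠ 0) →
  ∃ φ : V → Perm (Fin n), ∀ u v, G.Adj u v → ∀ i, φ v i ≠ σ u v (φ u i)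

/-- F9 -/
def S_PARM : Prop := ∀ ε : ℝ, 0 < ε → ε ≤ 1 → ∃ (K : ℕ) (Am η' ε' : ℝ) (A : ℕ → ℝ) (D₀ : ℕ),
  1 ≤ K ∧ 1 ≤ Am ∧ 0 < η' ∧ η' < 1 ∧ 0 < ε' ∧ ε' ≤ 1 ∧ A 0 = 1 ∧
  (∀ i, i ≤ K → 1 ≤ A i ∧ A i ≤ Am) ∧
  ∀ D : ℕ, D₀ ≤ D → ∀ n : ℕ, (1 + ε) * D ≤ n → ∃ L : ℕ → ℕ,
    (∀ i, i < K → 3 ≤ L i) ∧ (∀ i, i < K → (L i : ℝ) ≤ (1 - η') * n / A (i + 1)) ∧
    ∀ d : ℕ, (d : ℝ) ≤ (1 + ε') * D / K → ∀ i, i < K →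
      A i * ((L i : ℝ) / (L i - 1)) ^ d ≤ A (i + 1)

/-- F10 -/
def S_FIN : Prop := ∀ ε : ℝ, 0 < ε → ∃ (c : ℝ) (D₀ : ℕ), 0 < c ∧ ∀ D : ℕ, D₀ ≤ D →
  ∀ (V : Type) [Fintype V] [DecidableEq V] (G : SimpleGraph V) [DecidableRel G.Adj] (n : ℕ),
  (∀ v, (Finset.univ.filter (G.Adj v)).card ≤ D) → (Fintype.card V : ℝ) ≤ Real.exp (c * D) →
  (1 + ε) * D ≤ n → ∀ σ : V → V → Perm (Fin n), (∀ u v, G.Adj u v → σ v u = (σ u v)⁻¹) →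
  ∃ φ : V → Perm (Fin n), ∀ u v, G.Adj u v → ∀ i, φ v i ≠ σ u v (φ u i)

end Pool.Agent.H41.AL
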