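import Pool.Agent.H41.AL.Defs2
import Pool.Agent.H41.AUG.Final

set_option autoImplicit false

/-!
# Correspondence packings with `(1 + ε) Δ` colours: from permutations to covers
-/

namespace Pool.Agent.H41.AL

open Pool.Agent.H41.CP Pool.Agent.H41.AUG

theorem packing_asymp (hfin : S_FIN2) : ∀ ε : ℝ, 0 < ε → ∃ D₀ : ℕ,
    ∀ (V : Type) [Fintype V] (G : SimpleGraph V) [DecidableRel G.Adj], D₀ ≤ G.maxDegree →
    ∀ n : ℕ, (1 + ε) * G.maxDegree ≤ n → ∀ C : Cover G n, C.HasPacking := by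
  classical
  intro ε hε
  obtain ⟨D₀, hD₀⟩ := hfin ε hε
  refine ⟨D₀, fun V _ G _ hD n hn C => ?_⟩
  rcases Nat.lt_or_ge n (2 * G.maxDegree) with h | h
  · refine cover_of_perm G n (fun σ hσ => ?_) C
    refine hD₀ G.maxDegree hD V G n (fun v => ?_) hn h.le σ hσ
    have h1 := G.degree_le_maxDegree v
    rw [← SimpleGraph.card_neighborFinset_eq_degree] at h1
    refine le_trans (le_of_eq ?_) h1
    congr 1
    ext w
    simp
  · exact packing_of_maxDegree G n (Or.inl h) C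

theorem number_asymp (hfin : S_FIN2) : ∀ ε : ℝ, 0 < ε → ∃ D₀ : ℕ,
    ∀ (V : Type) [Fintype V] (G : SimpleGraph V) [DecidableRel G.Adj], D₀ ≤ G.maxDegree →
    (corrPackingNumber G : ℝ) ≤ (1 + ε) * G.maxDegree ∧
    ∀ n : ℕ, (1 + ε) * G.maxDegree ≤ n → ∀ C : Cover G n, C.HasPacking := by
  intro ε hε
  obtain ⟨D₁, h1⟩ := packing_asymp hfin ε hε
  obtain ⟨D₂, h2⟩ := packing_asymp hfin (ε / 2) (by linarith)
  obtain ⟨D₃, h3⟩ := exists_nat_ge (2 / ε)
  refine ⟨max (max D₁ D₂) (max D₃ 1), fun V _ G _ hD => ⟨?_, ?_⟩⟩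
  · have e1 : D₂ ≤ G.maxDegree := le_trans (le_trans (le_max_right _ _) (le_max_left _ _)) hD
    have e2 : D₃ ≤ G.maxDegree := le_trans (le_trans (le_max_left _ _) (le_max_right _ _)) hD
    have e3 : 1 ≤ G.maxDegree := le_trans (le_trans (le_max_right _ _) (le_max_right _ _)) hD
    set Δ : ℕ := G.maxDegree
    have e3R : (1 : ℝ) ≤ Δ := by exact_mod_cast e3
    have e4 : 2 / ε ≤ (Δ : ℝ) := h3.trans (by exact_mod_cast e2)
    have e5 : 2 ≤ ε * Δ := by
      have := (div_le_iff₀ hε).1 e4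
      linarith
    set n : ℕ := ⌈(1 + ε / 2) * (Δ : ℝ)⌉₊ with hn
    have hle : (1 + ε / 2) * (Δ : ℝ) ≤ n := Nat.le_ceil _
    have hlt : (n : ℝ) < (1 + ε / 2) * Δ + 1 := Nat.ceil_lt_add_one (by positivity)
    have hn1 : 1 ≤ n := by
      have : (0 : ℝ) < n := lt_of_lt_of_le (by positivity) hle
      exact_mod_cast this
    have hnum : corrPackingNumber G ≤ n := number_le hn1 (h2 V G e1 n hle)
    have : (corrPackingNumber G : ℝ) ≤ n := by exact_mod_cast hnum
    linarith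
  · exact h1 V G (le_trans (le_trans (le_max_left _ _) (le_max_left _ _)) hD)

end Pool.Agent.H41.AL
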